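import Pool.Agent.K7.H15.WR.Idx

/-!
# Edge colourings of wreath products: all graphs `G` with a vertex of degree at least two

Let `G` be a graph with chromatic index `Δ(G) ≥ 2` and `G'` any graph. Then the chromatic index of the
wreath product `G ρ G'` is its maximum degree. For `Δ(G) = 1` the same is proved for all `G'` in which
each edge `x y` between two different orbits satisfies one of the following conditions: `x` and `y`
have at most three common neighbours; or the vertices over `x` (or those over `y`) are not of maximum
degree in `G ρ G'`; or `x` (or `y`) has at most one neighbour in its own orbit.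

Outline of the proof. Let `d = Δ(G)`, let `D` be the maximum degree of `G ρ G'`, and let `H` be the
multigraph on the vertices of `G'` whose edges are those of `G'` and `d` further edges between any two
vertices of the same orbit. If the edges of `H` have a proper colouring with `D` colours then at each
vertex `d` colours are missing, and one obtains a colouring of `G ρ G'`: all fibres are coloured in
the same way, the `d` parallel edges belong to the `d` colours of `G`, and the missing colours
are used for the edges between vertices of `G ρ G'` with the same second coordinate. The orbits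
which are not joined to other orbits are treated separately (Vizing's theorem suffices). On the
other orbits the edges of `H` inside the orbits can be coloured by Vizing's theorem. The edges `x y`
between orbits are added one by one. If an edge `x y` cannot be added, whatever the colouring, then
the set `R` of the vertices which are reached from `x` and `y` by edges at `x` or `y` whose colours are
missing at vertices reached before is elementary: no colour is missing at two vertices of `R` (a
special case of a theorem of Tashkinov, with a short proof). So all the colours missing at vertices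
of `R` occur at `x` on edges to `R`, and the same holds for `y`. As at least `d` colours are missing at
each vertex, `x` is joined in `G'` to at least `d (r - a) + 2` vertices of `R`, where `r = |R|` and
`a` is the number of vertices of `R` in the orbit of `x`, and the same holds for `y`. For `d ≥ 2` the two
inequalities contradict each other.
-/

set_option autoImplicit false

namespace Pool.Agent.Results.MP_632be6_co.MaxDegreeTwo

open Classical

/-- The chromatic index. -/
noncomputable def chromaticIndex {V : Type} (G : SimpleGraph V) : ℕ :=
  sInf {k : ℕ | ∃ c : Sym2 V → Fin k, ∀ e ∈ G.edgeSet, ∀ f ∈ G.edgeSet,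
    e ≠ f → (∃ v, v ∈ e ∧ v ∈ f) → c e ≠ c f}

/-- The vertices `u` and `w` are in the same orbit of the automorphism group. -/
def SameOrbit {W : Type} (G' : SimpleGraph W) (u w : W) : Prop := ∃ φ : G' ≃g G', φ u = w

/-- The wreath product of `G` and `G'`. -/
def wreathProduct {V W : Type} (G : SimpleGraph V) (G' : SimpleGraph W) : SimpleGraph (V × W) :=
  SimpleGraph.fromRel fun p q : V × W =>
    (p.1 = q.1 ∧ G'.Adj p.2 q.2) ∨ (G.Adj p.1 q.1 ∧ ∃ φ : G' ≃g G', φ p.2 = q.2)

/-- `D` is larger than the degree, in the wreath product with a graph of maximum degree `d`, of all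
vertices with the second coordinate `x`. -/
def NotMaximal {W : Type} [Fintype W] (G' : SimpleGraph W) (d D : ℕ) (x : W) : Prop :=
  d * {w | SameOrbit G' x w}.ncard + G'.degree x < D

/-- `x` has at most one neighbour in its own orbit. -/
def FewInside {W : Type} (G' : SimpleGraph W) (x : W) : Prop :=
  {w | G'.Adj x w ∧ SameOrbit G' x w}.ncard ≤ 1

/-- For each edge `x y` of `G'` between different orbits, `x` and `y` have at most three common
neighbours, or `x` or `y` is not maximal, or `x` or `y` has at most one neighbour in its orbit. -/
def EdgeCondition {W : Type} [Fintype W] (G' : SimpleGraph W) (d D : ℕ) : Prop :=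
  ∀ x y, G'.Adj x y → ¬ SameOrbit G' x y →
    {w | G'.Adj x w ∧ G'.Adj y w}.ncard ≤ 3 ∨
      NotMaximal G' d D x ∨ NotMaximal G' d D y ∨ FewInside G' x ∨ FewInside G' y

/-- **Wreath products of class 1.** -/
theorem result (V W : Type) [Fintype V] [Fintype W] (G : SimpleGraph V) (G' : SimpleGraph W)
    (hne : G.edgeSet.Nonempty) (hG : chromaticIndex G = G.maxDegree)
    (h : 2 ≤ G.maxDegree ∨ EdgeCondition G' G.maxDegree (wreathProduct G G').maxDegree) :
    chromaticIndex (wreathProduct G G') = (wreathProduct G G').maxDegree := by
  obtain ⟨hd, hEC⟩ := Pool.Agent.K7.H15.WR.ec_of_idx hne hG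
  have hw : wreathProduct G G' = Pool.Agent.X76.Wr.wreath G G' := by
    ext p q
    rw [wreathProduct, SimpleGraph.fromRel_adj]
    constructor
    · rintro ⟨-, h1 | h1⟩
      · exact h1
      · exact SimpleGraph.Adj.symm (G := Pool.Agent.X76.Wr.wreath G G') h1
    · intro h1
      exact ⟨SimpleGraph.ne_of_adj _ h1, Or.inl h1⟩
  have hle : ∀ u, G.maxDegree * Pool.Agent.X76.Wr.orb G' u + G'.degree u ≤
      (Pool.Agent.X76.Wr.wreath G G').maxDegree := by
    intro u
    obtain ⟨e, -⟩ := hne
    exact Pool.Agent.X76.Wr.max_bound G G' e.out.1 u
  have hmain : Pool.Agent.X76.Wr.EC (Pool.Agent.X76.Wr.wreath G G').maxDegree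
      (Pool.Agent.X76.Wr.wreath G G') := by
    refine Pool.Agent.K7.H15.WR.main_EC hd hEC hle ?_
    rcases h with h | h
    · exact Or.inl h
    · right
      rw [hw] at h
      intro x y hxy hT
      have hinn : ∀ u, FewInside G' u → Pool.Agent.K7.H15.WR.inn G' u ≤ 1 := by
        intro u hu
        rw [Pool.Agent.K7.H15.WR.inn, ← Set.ncard_coe_finset]
        refine le_trans (le_of_eq ?_) hu
        congr 1
        ext w
        rw [Finset.mem_coe, Finset.mem_filter]
        exact ⟨fun h => h.2, fun h => ⟨Finset.mem_univ _, h⟩⟩
      rcases h x y hxy hT with h1 | h1 | h1 | h1 | h1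
      · left
        rw [← Set.ncard_coe_finset]
        refine le_trans (le_of_eq ?_) h1
        congr 1
        ext w
        simp
      · exact Or.inr (Or.inl h1)
      · exact Or.inr (Or.inr (Or.inl h1))
      · exact Or.inr (Or.inr (Or.inr (Or.inl (hinn x h1))))
      · exact Or.inr (Or.inr (Or.inr (Or.inr (hinn y h1))))
  rw [hw]
  rcases isEmpty_or_nonempty W with hW | ⟨⟨w⟩⟩
  · have h0 : 0 ∈ Pool.Agent.K7.H15.WR.Cols (Pool.Agent.X76.Wr.wreath G G') := by
      refine ⟨fun e => (hW.false e.out.1.2).elim, fun e _ => (hW.false e.out.1.2).elim⟩
    have h1 := Pool.Agent.K7.H15.WR.le_of_cols h0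
    have h2 : sInf (Pool.Agent.K7.H15.WR.Cols (Pool.Agent.X76.Wr.wreath G G')) = 0 :=
      Nat.sInf_eq_zero.2 (Or.inl h0)
    exact h2.trans (Nat.le_zero.1 h1).symm
  · refine Pool.Agent.K7.H15.WR.idx_eq hmain ?_
    have h2 := hle w
    have h3 := Pool.Agent.K7.H15.WR.orb_pos (G' := G') w
    nlinarith

end Pool.Agent.Results.MP_632be6_co.MaxDegreeTwo
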